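import Pool.Agent.Helper95.PW.Stmts

/-! # Row ATT (MP_56acfd_mp): the attraction of the nucleus -/

set_option autoImplicit false

namespace Pool.Agent.Helper95.PW

open MeasureTheory Filter

theorem att_nr_nonneg (y : R3) : 0 ≤ nr y := Real.sqrt_nonneg _

theorem att_nr_cont : Continuous nr := by
  unfold nr
  fun_prop

theorem att_ball_nonneg (R : ℝ) (y : R3) : 0 ≤ ball R y := by
  unfold ball
  exact Set.indicator_nonneg (fun _ _ => zero_le_one) y

/-- the pointwise bound -/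
theorem att_pt (R r0 : ℝ) (hR : 0 < R) (hr : 0 < r0) (J : ℕ) (hJ : R / 2 ^ J ≤ r0) (y : R3) :
    1 / nr y ≤ 1 / R + r0 * (1 / nr y ^ 2) +
      ∑ j ∈ Finset.range J, 2 / (R / 2 ^ j) * ball (R / 2 ^ j) y := by
  have h0 := att_nr_nonneg y
  have hterm : ∀ j ∈ Finset.range J, 0 ≤ 2 / (R / 2 ^ j) * ball (R / 2 ^ j) y := fun j _ =>
    mul_nonneg (by positivity) (att_ball_nonneg _ _)
  have hsum : 0 ≤ ∑ j ∈ Finset.range J, 2 / (R / 2 ^ j) * ball (R / 2 ^ j) y :=
    Finset.sum_nonneg hterm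
  have h1 : 0 ≤ 1 / R := by positivity
  have h2 : 0 ≤ r0 * (1 / nr y ^ 2) := by positivity
  rcases h0.eq_or_lt with h3 | h3
  · rw [← h3, div_zero]
    rw [← h3] at h2
    linarith
  rcases le_or_gt R (nr y) with h4 | h4
  · have h5 : 1 / nr y ≤ 1 / R := one_div_le_one_div_of_le hR h4
    linarith
  rcases le_or_gt (nr y) r0 with h5 | h5
  · have h6 : 1 / nr y = nr y * (1 / nr y ^ 2) := by field_simp
    have h7 : nr y * (1 / nr y ^ 2) ≤ r0 * (1 / nr y ^ 2) :=
      mul_le_mul_of_nonneg_right h5 (by positivity)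
    linarith
  · classical
    have hex : ∃ j : ℕ, R / 2 ^ j < nr y := ⟨J, lt_of_le_of_lt hJ h5⟩
    set j0 := Nat.find hex with hj0
    have h6 : R / 2 ^ j0 < nr y := Nat.find_spec hex
    have h7 : j0 ≤ J := Nat.find_min' hex (lt_of_le_of_lt hJ h5)
    have h8 : j0 ≠ 0 := by
      intro h
      rw [h, pow_zero, div_one] at h6
      linarith
    obtain ⟨j, hj⟩ := Nat.exists_eq_succ_of_ne_zero h8
    have h9 : ¬ R / 2 ^ j < nr y := Nat.find_min hex (by omega)
    rw [not_lt] at h9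
    have h10 : 2 / (R / 2 ^ j) * ball (R / 2 ^ j) y = 2 / (R / 2 ^ j) := by
      unfold ball
      rw [Set.indicator_of_mem (show y ∈ {y | nr y ≤ R / 2 ^ j} from h9), mul_one]
    have h11 := Finset.single_le_sum hterm (Finset.mem_range.2 (show j < J by omega))
    rw [h10] at h11
    have h12 : 1 / nr y ≤ 2 / (R / 2 ^ j) := by
      rw [hj, Nat.succ_eq_add_one, pow_succ] at h6
      have h13 : R / (2 ^ j * 2) = (R / 2 ^ j) / 2 := by field_simp
      rw [h13] at h6
      have h14 : 0 < R / 2 ^ j := by positivity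
      rw [div_le_div_iff₀ h3 h14]
      linarith
    linarith

theorem att_sqint {n : ℕ} {v : Cf n → ℝ} (hc : Continuous v) (hs : HasCompactSupport v) :
    Integrable (fun x => v x ^ 2) := by
  have h : (fun x => v x ^ 2) = fun x => v x * v x := funext fun x => pow_two (v x)
  rw [h]
  exact (hc.mul hc).integrable_of_hasCompactSupport hs.mul_right

theorem att_kin {n : ℕ} (hH : ST_HA1) (u : Wf n) (hu : Sm u) :
    ∑ s, ∑ k, ∫ x, u s x ^ 2 / nr (x k) ^ 2 ≤ 4 * kin u := by
  have h1 : ∀ s k, ∫ x, u s x ^ 2 / nr (x k) ^ 2 ≤ 4 * ∑ i, ∫ x, dv k i (u s) x ^ 2 := by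
    intro s k
    refine ((hH n k (u s) (hu s).1 (hu s).2).2).trans (le_of_eq ?_)
    rw [integral_finsetSum]
    intro i _
    apply att_sqint
    · exact ((hu s).1.continuous_fderiv (by simp)).clm_apply continuous_const
    · exact (hu s).2.fderiv_apply ℝ _
  have h2 : 4 * kin u = ∑ s, ∑ k, 4 * ∑ i, ∫ x, dv k i (u s) x ^ 2 := by
    unfold kin sq
    rw [Finset.mul_sum, Finset.sum_comm]
    refine Finset.sum_congr rfl fun k _ => ?_
    rw [← Finset.mul_sum, Finset.sum_comm]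
  rw [h2]
  exact Finset.sum_le_sum fun s _ => Finset.sum_le_sum fun k _ => h1 s k

/-- the integrated bound -/
theorem att_int {n : ℕ} (hH : ST_HA1) (u : Wf n) (hu : Sm u) (R r0 : ℝ) (hR : 0 < R)
    (hr : 0 < r0) (J : ℕ) (hJ : R / 2 ^ J ≤ r0) :
    one (fun y => 1 / nr y) u ≤ n * sq u / R + r0 * (4 * kin u) +
      ∑ j ∈ Finset.range J, 2 / (R / 2 ^ j) * one (ball (R / 2 ^ j)) u := by
  have hI1 : ∀ s, Integrable (fun x => u s x ^ 2) := fun s =>
    att_sqint (hu s).1.continuous (hu s).2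
  have hI2 : ∀ s k, Integrable (fun x : Cf n => u s x ^ 2 / nr (x k) ^ 2) := fun s k =>
    (hH n k (u s) (hu s).1 (hu s).2).1
  have hI3 : ∀ s (ρ : ℝ) (k : Fin n), Integrable (fun x : Cf n => ball ρ (x k) * u s x ^ 2) := by
    intro s ρ k
    have h1 : (fun x : Cf n => ball ρ (x k) * u s x ^ 2) =
        Set.indicator {x : Cf n | nr (x k) ≤ ρ} (fun x => u s x ^ 2) := by
      funext x
      by_cases hx : nr (x k) ≤ ρ
      · rw [Set.indicator_of_mem (show x ∈ {x : Cf n | nr (x k) ≤ ρ} from hx)]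
        unfold ball
        rw [Set.indicator_of_mem (show x k ∈ {y | nr y ≤ ρ} from hx), one_mul]
      · rw [Set.indicator_of_notMem (show x ∉ {x : Cf n | nr (x k) ≤ ρ} from hx)]
        unfold ball
        rw [Set.indicator_of_notMem (show x k ∉ {y | nr y ≤ ρ} from hx), zero_mul]
    rw [h1]
    refine (hI1 s).indicator ?_
    exact (isClosed_le (att_nr_cont.comp (continuous_apply k)) continuous_const).measurableSet
  have hI4 : ∀ s (ρ : ℝ), Integrable (fun x : Cf n => (∑ k, ball ρ (x k)) * u s x ^ 2) := by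
    intro s ρ
    simp only [Finset.sum_mul]
    exact integrable_finsetSum _ fun k _ => hI3 s ρ k
  have key : ∀ s, ∫ x, (∑ k, 1 / nr (x k)) * u s x ^ 2 ≤ (n / R * (∫ x, u s x ^ 2) +
      r0 * (∑ k, ∫ x, u s x ^ 2 / nr (x k) ^ 2)) +
      (∑ j ∈ Finset.range J, 2 / (R / 2 ^ j) *
        (∫ x, (∑ k, ball (R / 2 ^ j) (x k)) * u s x ^ 2)) := by
    intro s
    have hA : Integrable (fun x : Cf n => n / R * u s x ^ 2) := (hI1 s).const_mul _
    have hB : Integrable (fun x : Cf n => r0 * ∑ k, u s x ^ 2 / nr (x k) ^ 2) :=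
      (integrable_finsetSum _ fun k _ => hI2 s k).const_mul _
    have hC : Integrable (fun x : Cf n => ∑ j ∈ Finset.range J,
        2 / (R / 2 ^ j) * ((∑ k, ball (R / 2 ^ j) (x k)) * u s x ^ 2)) :=
      integrable_finsetSum _ fun j _ => (hI4 s _).const_mul _
    have hAB : Integrable (fun x : Cf n => n / R * u s x ^ 2 +
        r0 * ∑ k, u s x ^ 2 / nr (x k) ^ 2) := hA.add hB
    have h1 : ∫ x, (∑ k, 1 / nr (x k)) * u s x ^ 2 ≤ ∫ x : Cf n, ((n / R * u s x ^ 2 +
        r0 * ∑ k, u s x ^ 2 / nr (x k) ^ 2) + ∑ j ∈ Finset.range J,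
        2 / (R / 2 ^ j) * ((∑ k, ball (R / 2 ^ j) (x k)) * u s x ^ 2)) := by
      refine integral_mono_of_nonneg (Filter.Eventually.of_forall fun x => ?_)
        (hAB.add hC) (Filter.Eventually.of_forall fun x => ?_)
      · exact mul_nonneg (Finset.sum_nonneg fun k _ => div_nonneg zero_le_one
          (att_nr_nonneg _)) (sq_nonneg _)
      · have h2 : ∑ k, 1 / nr (x k) ≤ ∑ k : Fin n, (1 / R + r0 * (1 / nr (x k) ^ 2) +
            ∑ j ∈ Finset.range J, 2 / (R / 2 ^ j) * ball (R / 2 ^ j) (x k)) :=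
          Finset.sum_le_sum fun k _ => att_pt R r0 hR hr J hJ (x k)
        have h3 := mul_le_mul_of_nonneg_right h2 (sq_nonneg (u s x))
        refine h3.trans (le_of_eq ?_)
        rw [Finset.sum_add_distrib, Finset.sum_add_distrib, Finset.sum_const, Finset.card_univ,
          Fintype.card_fin, nsmul_eq_mul, add_mul, add_mul, ← Finset.mul_sum, Finset.sum_comm]
        congr 1
        · congr 1
          · ring
          · rw [mul_assoc, Finset.sum_mul]
            congr 1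
            refine Finset.sum_congr rfl fun k _ => ?_
            ring
        · rw [Finset.sum_mul]
          refine Finset.sum_congr rfl fun j _ => ?_
          rw [← Finset.mul_sum, mul_assoc]
    refine h1.trans (le_of_eq ?_)
    rw [integral_add hAB hC, integral_add hA hB, integral_const_mul, integral_const_mul,
      integral_finsetSum _ fun k _ => hI2 s k,
      integral_finsetSum _ fun j _ => (hI4 s _).const_mul _]
    congr 1
    exact Finset.sum_congr rfl fun j _ => integral_const_mul _ _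
  have h1 := Finset.sum_le_sum fun s (_ : s ∈ (Finset.univ : Finset (Fin n → Fin 2))) => key s
  rw [Finset.sum_add_distrib, Finset.sum_add_distrib, ← Finset.mul_sum, ← Finset.mul_sum] at h1
  have h2 := att_kin hH u hu
  have h3 : (∑ s : Fin n → Fin 2, ∑ j ∈ Finset.range J,
      2 / (R / 2 ^ j) * (∫ x, (∑ k, ball (R / 2 ^ j) (x k)) * u s x ^ 2)) =
      ∑ j ∈ Finset.range J, 2 / (R / 2 ^ j) * one (ball (R / 2 ^ j)) u := by
    rw [Finset.sum_comm]
    refine Finset.sum_congr rfl fun j _ => ?_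
    rw [← Finset.mul_sum]
    rfl
  rw [h3] at h1
  have h4 : one (fun y => 1 / nr y) u = ∑ s, ∫ x, (∑ k, 1 / nr (x k)) * u s x ^ 2 := rfl
  have h5 : sq u = ∑ s, ∫ x, u s x ^ 2 := rfl
  rw [h4, h5]
  have h6 := mul_le_mul_of_nonneg_left h2 hr.le
  have h7 : (n : ℝ) * (∑ s, ∫ x, u s x ^ 2) / R = n / R * ∑ s, ∫ x, u s x ^ 2 := by ring
  rw [h7]
  linarith

theorem att_kin_nonneg {n : ℕ} (u : Wf n) : 0 ≤ kin u := by
  unfold kin sq
  exact Finset.sum_nonneg fun k _ => Finset.sum_nonneg fun i _ => Finset.sum_nonneg fun s _ =>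
    integral_nonneg fun x => sq_nonneg _

theorem att_sq_nonneg {n : ℕ} (u : Wf n) : 0 ≤ sq u := by
  unfold sq
  exact Finset.sum_nonneg fun s _ => integral_nonneg fun x => sq_nonneg _

/-- row ATT -/
theorem st_ATT (hN : ST_NR) (hH : ST_HA1) : ST_ATT := by
  obtain ⟨C, hC, hN⟩ := hN
  set p : ℝ := (2 : ℝ) ^ (1 / 5 : ℝ) with hp
  have hp1 : 1 < p := Real.one_lt_rpow (by norm_num) (by norm_num)
  have hp0 : 0 < p := by linarith
  have hip : p⁻¹ < 1 := inv_lt_one_of_one_lt₀ hp1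
  have hip0 : 0 ≤ p⁻¹ := by positivity
  set K : ℝ := (1 - p⁻¹)⁻¹ with hK
  have hKpos : 0 < K := inv_pos.2 (by linarith)
  refine ⟨6 + 4 * C * K, by positivity, fun n u hn hS hA hq => ?_⟩
  have hk := att_kin_nonneg u
  have hq0 := att_sq_nonneg u
  have hnr : (1 : ℝ) ≤ n := by exact_mod_cast hn
  have hn0 : (0 : ℝ) < n := by linarith
  rcases hk.eq_or_lt with h0 | h0
  · rw [← h0, Real.sqrt_zero, mul_zero]
    by_contra hcon
    rw [not_le] at hcon
    set a := one (fun y => 1 / nr y) u with ha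
    have h1 := att_int hH u hS ((n * sq u + 1) / a) ((n * sq u + 1) / a) (by positivity)
      (by positivity) 0 (by rw [pow_zero, div_one])
    rw [← h0, Finset.sum_range_zero, mul_zero, mul_zero, add_zero, add_zero, ← ha] at h1
    have h2 : (n : ℝ) * sq u / ((n * sq u + 1) / a) = a * (n * sq u / (n * sq u + 1)) := by
      field_simp
    rw [h2] at h1
    have h3 : (n : ℝ) * sq u / (n * sq u + 1) < 1 := by
      rw [div_lt_one (by positivity)]
      linarith
    nlinarith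
  set τ : ℝ := Real.sqrt (kin u) with hτ
  have hτ0 : 0 < τ := Real.sqrt_pos.2 h0
  have hτ2 : τ ^ 2 = kin u := Real.sq_sqrt hk
  set N : ℝ := (n : ℝ) ^ (5 / 6 : ℝ) with hNdef
  have hN1 : 1 ≤ N := Real.one_le_rpow hnr (by norm_num)
  have hN0 : 0 < N := by linarith
  set m : ℝ := (n : ℝ) ^ (1 / 6 : ℝ) with hm
  have hm1 : 1 ≤ m := Real.one_le_rpow hnr (by norm_num)
  have hnm : (n : ℝ) = N * m := by
    rw [hNdef, hm, ← Real.rpow_add hn0]
    norm_num
  have hN5 : N ^ (1 / 5 : ℝ) = m := by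
    rw [hNdef, hm, ← Real.rpow_mul hn0.le]
    norm_num
  classical
  have hex : ∃ J : ℕ, N / 2 ^ J ≤ 1 := by
    obtain ⟨J, hJ⟩ := pow_unbounded_of_one_lt N (one_lt_two (α := ℝ))
    exact ⟨J, (div_le_one (by positivity)).2 hJ.le⟩
  set J := Nat.find hex with hJdef
  have hJ : N / 2 ^ J ≤ 1 := Nat.find_spec hex
  have h1 := att_int hH u hS (N / τ) (1 / τ) (by positivity) (by positivity) J (by
    rw [div_div, mul_comm τ, ← div_div]
    exact div_le_div_of_nonneg_right hJ hτ0.le)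
  have h2 : (n : ℝ) * sq u / (N / τ) ≤ 2 * (m * τ) := by
    rw [div_le_iff₀ (by positivity)]
    calc (n : ℝ) * sq u ≤ n * 2 := mul_le_mul_of_nonneg_left hq hn0.le
      _ = 2 * (m * τ) * (N / τ) := by rw [hnm]; field_simp
  have h3 : 1 / τ * (4 * kin u) = 4 * τ := by
    rw [← hτ2]
    field_simp
  have h4 : ∀ j ∈ Finset.range J, 2 / (N / τ / 2 ^ j) * one (ball (N / τ / 2 ^ j)) u ≤
      4 * C * (m * τ) * p⁻¹ ^ j := by
    intro j hj
    have h5 : ¬ N / 2 ^ j ≤ 1 := Nat.find_min hex (Finset.mem_range.1 hj)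
    rw [not_le] at h5
    set ρ : ℝ := N / 2 ^ j with hρ
    have hρ0 : 0 < ρ := by linarith
    have h6 : N / τ / 2 ^ j = ρ / τ := by
      rw [hρ]
      field_simp
    rw [h6]
    have h7 := hN n u hS hA hq (ρ / τ) (by positivity)
    have h8 : kin u * (ρ / τ) ^ 2 = ρ ^ 2 := by
      rw [← hτ2]
      field_simp
    rw [h8] at h7
    have h9 : (ρ ^ 2) ^ (3 / 5 : ℝ) = ρ * ρ ^ (1 / 5 : ℝ) := by
      rw [← Real.rpow_natCast ρ 2, ← Real.rpow_mul hρ0.le]
      conv_rhs => rw [← Real.rpow_one ρ, Real.rpow_one, ← Real.rpow_one_add' hρ0.le (by norm_num)]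
      norm_num
    have h10 : 1 ≤ (ρ ^ 2) ^ (3 / 5 : ℝ) :=
      Real.one_le_rpow (one_le_pow₀ h5.le) (by norm_num)
    have h11 : ρ ^ (1 / 5 : ℝ) = m * p⁻¹ ^ j := by
      rw [hρ, Real.div_rpow hN0.le (by positivity), hN5, ← Real.rpow_natCast, ← Real.rpow_mul
        (by norm_num), mul_comm (j : ℝ), Real.rpow_mul (by norm_num), Real.rpow_natCast, ← hp,
        inv_pow, div_eq_mul_inv]
    have h12 : 2 / (ρ / τ) = 2 * τ / ρ := by field_simp
    rw [h12]
    calc 2 * τ / ρ * one (ball (ρ / τ)) u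
        ≤ 2 * τ / ρ * (C * (1 + (ρ ^ 2) ^ (3 / 5 : ℝ))) :=
          mul_le_mul_of_nonneg_left h7 (by positivity)
      _ ≤ 2 * τ / ρ * (C * (2 * (ρ ^ 2) ^ (3 / 5 : ℝ))) := by
          refine mul_le_mul_of_nonneg_left (mul_le_mul_of_nonneg_left ?_ hC.le) (by positivity)
          linarith
      _ = 4 * C * (ρ ^ (1 / 5 : ℝ) * τ) := by
          rw [h9]
          field_simp
          ring
      _ = 4 * C * (m * τ) * p⁻¹ ^ j := by
          rw [h11]
          ring
  have h5 : ∑ j ∈ Finset.range J, 2 / (N / τ / 2 ^ j) * one (ball (N / τ / 2 ^ j)) u ≤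
      4 * C * (m * τ) * K := by
    refine (Finset.sum_le_sum h4).trans ?_
    rw [← Finset.mul_sum]
    refine mul_le_mul_of_nonneg_left ?_ (by positivity)
    rw [hK, ← tsum_geometric_of_lt_one hip0 hip]
    exact (summable_geometric_of_lt_one hip0 hip).sum_le_tsum _ fun j _ => pow_nonneg hip0 j
  rw [h3] at h1
  have h6 : 4 * τ ≤ 4 * (m * τ) := by nlinarith
  have h7 : (6 + 4 * C * K) * m * τ = 2 * (m * τ) + 4 * (m * τ) + 4 * C * (m * τ) * K := by ring
  rw [h7]
  linarith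

end Pool.Agent.Helper95.PW
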